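import Mathlib

/-!
# Enlargements given by ultrapowers

An ultrafilter `W` on a set `I` gives the nonstandard extension `Germ W X` (the ultrapower) of every
set `X`.  We construct ultrafilters `WW κ` on `ℕ × I` for which this extension is an enlargement
for all families of at most `κ` sets, and which are obtained by first enlarging and then taking a
further ultrapower by a nonprincipal ultrafilter on `ℕ`.
-/

namespace Pool.Agent.X217.Enl

open Filter Set
open scoped Cardinal

/-- The nonstandard extension of a set `A ⊆ X` in the ultrapower by `W`. -/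
def star {I X : Type} (W : Ultrafilter I) (A : Set X) : Set (Germ (W : Filter I) X) :=
  {x | x.LiftPred (fun a => a ∈ A)}

/-- The ultrapower by `W` is an enlargement for all families of at most `κ` sets: if `𝒜` is a
family of at most `κ` subsets of a set `X` and `𝒜` has the finite intersection property then the
extensions of the members of `𝒜` have a common element. -/
def Enlarging (κ : Cardinal.{0}) {I : Type} (W : Ultrafilter I) : Prop :=
  ∀ (X : Type) (𝒜 : Set (Set X)), #𝒜 ≤ κ →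
    (∀ T : Finset (Set X), (T : Set (Set X)) ⊆ 𝒜 → (⋂₀ (T : Set (Set X))).Nonempty) →
    ∃ x : Germ (W : Filter I) X, ∀ A ∈ 𝒜, x ∈ star W A

/-- The monad of an ultrafilter `F` on the positive integers. -/
def monad {I : Type} (W : Ultrafilter I) (F : Ultrafilter ℕ+) : Set (Germ (W : Filter I) ℕ+) :=
  {x | ∀ A ∈ F, x ∈ star W A}

/-- The relation `F ∣~ G` on ultrafilters: for each `A ∈ F` the set of all numbers divisible by some
element of `A` belongs to `G`. -/
def TDvd (F G : Ultrafilter ℕ+) : Prop := ∀ A ∈ F, {n : ℕ+ | ∃ a ∈ A, a ∣ n} ∈ G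

/-- An ultrafilter on the finite subsets of `Y` containing all cones. -/
noncomputable def V0 (Y : Type) : Ultrafilter (Finset Y) := Ultrafilter.of atTop

theorem V0_cone {Y : Type} (y : Y) : {s : Finset Y | y ∈ s} ∈ V0 Y := by
  have h1 : (V0 Y : Filter (Finset Y)) ≤ atTop := Ultrafilter.of_le _
  refine h1 ?_
  have : {s : Finset Y | {y} ≤ s} ∈ (atTop : Filter (Finset Y)) := Ici_mem_atTop _
  refine mem_of_superset this fun s hs => ?_
  exact Finset.singleton_subset_iff.1 hs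

/-- The iterated ultrafilter: first the cones, then the nonprincipal ultrafilter on `ℕ`. -/
noncomputable def WW (Y : Type) : Ultrafilter (ℕ × Finset Y) :=
  (hyperfilter ℕ).bind fun n => (V0 Y).map fun s => (n, s)

theorem mem_WW {Y : Type} {S : Set (ℕ × Finset Y)} :
    S ∈ WW Y ↔ {n | {s | (n, s) ∈ S} ∈ V0 Y} ∈ hyperfilter ℕ := Iff.rfl

theorem WW_enlarging (Y : Type) : Enlarging #Y (WW Y) := by
  classical
  intro X 𝒜 hc hfip
  obtain ⟨e⟩ : Nonempty (𝒜 ↪ Y) := Cardinal.le_def _ _ |>.1 hc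
  -- the finite subfamily attached to a finite subset of `Y`
  let T : Finset Y → Finset (Set X) := fun s =>
    (s.preimage e (e.injective.injOn)).map ⟨Subtype.val, Subtype.val_injective⟩
  have hT : ∀ s, (T s : Set (Set X)) ⊆ 𝒜 := by
    intro s A hA
    obtain ⟨B, -, rfl⟩ := Finset.mem_map.1 (Finset.mem_coe.1 hA)
    exact B.2
  have hne : ∀ s, ∃ x : X, x ∈ ⋂₀ (T s : Set (Set X)) := fun s => hfip (T s) (hT s)
  choose g hg using hne
  refine ⟨((fun ns : ℕ × Finset Y => g ns.2) : ℕ × Finset Y → X), fun A hA => ?_⟩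
  show ∀ᶠ ns in (WW Y : Filter (ℕ × Finset Y)), g ns.2 ∈ A
  show {n : ℕ | {s | g s ∈ A} ∈ V0 Y} ∈ hyperfilter ℕ
  refine mem_of_superset univ_mem fun n _ => ?_
  show {s | g s ∈ A} ∈ V0 Y
  refine mem_of_superset (V0_cone (e ⟨A, hA⟩)) fun s hs => ?_
  refine hg s A ?_
  refine Finset.mem_coe.2 (Finset.mem_map.2 ⟨⟨A, hA⟩, ?_, rfl⟩)
  exact Finset.mem_preimage.2 hs

/-- The filter of subsets of `{(n, j) | j < n}` with sections of bounded co-cardinality on a large
set of `n`. -/
def secFilter : Filter (ℕ × ℕ) where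
  sets := {S | ∃ m : ℕ, ∀ᶠ n in (hyperfilter ℕ : Filter ℕ),
    ∃ t : Finset ℕ, t.card ≤ m ∧ ∀ j < n, j ∉ t → (n, j) ∈ S}
  univ_sets := ⟨0, Eventually.of_forall fun n => ⟨∅, le_refl _, fun _ _ _ => mem_univ _⟩⟩
  sets_of_superset := by
    rintro S T ⟨m, hm⟩ hST
    exact ⟨m, hm.mono fun n ⟨t, ht, h⟩ => ⟨t, ht, fun j hj hjt => hST (h j hj hjt)⟩⟩
  inter_sets := by
    classical
    rintro S T ⟨m, hm⟩ ⟨m', hm'⟩
    refine ⟨m + m', (hm.and hm').mono ?_⟩
    rintro n ⟨⟨t, ht, h⟩, ⟨t', ht', h'⟩⟩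
    refine ⟨t ∪ t', (Finset.card_union_le _ _).trans (add_le_add ht ht'), fun j hj hjt => ?_⟩
    rw [Finset.mem_union, not_or] at hjt
    exact ⟨h j hj hjt.1, h' j hj hjt.2⟩

/-- Restricting to the pairs `(n, j)` with `j < n`. -/
def secFilter' : Filter (ℕ × ℕ) := secFilter ⊓ 𝓟 {x | x.2 < x.1}

instance : NeBot secFilter' := by
  refine ⟨fun hbot => ?_⟩
  have h0 : (∅ : Set (ℕ × ℕ)) ∈ secFilter' := by rw [hbot]; exact mem_bot
  rw [secFilter', mem_inf_principal] at h0
  obtain ⟨m, hm⟩ := h0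
  have hl : ∀ᶠ n in (hyperfilter ℕ : Filter ℕ), m + 1 ≤ n :=
    Nat.hyperfilter_le_atTop (Ici_mem_atTop _)
  obtain ⟨n, ⟨t, ht, h⟩, hn⟩ := (hm.and hl).exists
  have h1 : Finset.range n ⊆ t := by
    intro j hj
    by_contra hjt
    exact h j (Finset.mem_range.1 hj) hjt (Finset.mem_range.1 hj)
  have h2 := Finset.card_le_card h1
  rw [Finset.card_range] at h2
  omega

/-- An ultrafilter on the pairs `(n, j)`, `j < n`, projecting to the hyperfilter in the first
coordinate and containing no graph of a function. -/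
noncomputable def EE : Ultrafilter (ℕ × ℕ) := Ultrafilter.of secFilter'

theorem EE_le : (EE : Filter (ℕ × ℕ)) ≤ secFilter' := Ultrafilter.of_le _

theorem EE_lt : {x : ℕ × ℕ | x.2 < x.1} ∈ EE :=
  EE_le (mem_inf_of_right (mem_principal_self _))

theorem EE_fst {S : Set ℕ} (hS : S ∈ hyperfilter ℕ) : {x : ℕ × ℕ | x.1 ∈ S} ∈ EE := by
  refine EE_le (mem_inf_of_left ⟨0, ?_⟩)
  filter_upwards [hS] with n hn
  exact ⟨∅, le_refl _, fun j _ _ => hn⟩

theorem EE_fst' {S : Set (ℕ × ℕ)} (hS : S ∈ EE) : {n | ∃ j, j < n ∧ (n, j) ∈ S} ∈ hyperfilter ℕ := by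
  by_contra hcon
  have h1 := EE_fst ((Ultrafilter.compl_mem_iff_notMem).2 hcon)
  obtain ⟨⟨n, j⟩, ⟨h2, h3⟩, h4⟩ := EE.nonempty_of_mem (inter_mem (inter_mem h1 hS) EE_lt)
  exact h2 ⟨j, h4, h3⟩

theorem EE_graph (c : ℕ → ℕ) : {x : ℕ × ℕ | x.2 ≠ c x.1} ∈ EE := by
  refine EE_le (mem_inf_of_left ⟨1, Eventually.of_forall fun n => ⟨{c n}, ?_, ?_⟩⟩)
  · rw [Finset.card_singleton]
  · intro j _ hj h
    exact hj (Finset.mem_singleton.2 h)

/-- The `i`-th prime. -/
noncomputable def P (i : ℕ) : ℕ+ := ⟨Nat.nth Nat.Prime i, (Nat.prime_nth_prime i).pos⟩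

theorem P_prime (i : ℕ) : (P i : ℕ).Prime := Nat.prime_nth_prime i

theorem P_injective : Function.Injective P := by
  intro i j h
  exact Nat.nth_injective Nat.infinite_setOfPred_prime (congrArg PNat.val h)

theorem P_dvd_pow {n m j : ℕ} (h : P n ∣ P m ^ j) : n = m := by
  have h1 : (P n : ℕ) ∣ (P m : ℕ) ^ j := by
    have := PNat.dvd_iff.1 h
    rwa [PNat.pow_coe] at this
  have h2 := (P_prime n).dvd_of_dvd_pow h1
  exact P_injective (PNat.eq ((Nat.prime_dvd_prime_iff_eq (P_prime n) (P_prime m)).1 h2))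

theorem P_pow_inj {m j i : ℕ} (h : P m ^ j = P m ^ i) : j = i := by
  have := congrArg PNat.val h
  rw [PNat.pow_coe, PNat.pow_coe] at this
  exact Nat.pow_right_injective (P_prime m).two_le this

/-- The prime power attached to a pair. -/
noncomputable def b (x : ℕ × ℕ) : ℕ+ := P x.1 ^ (x.2 + 1)

end Pool.Agent.X217.Enl
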