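import Mathlib

/-!
# Multiplicative finite embeddability and M-divisibility

Basic definitions on ultrafilters on the positive integers `ℕ+`, and one ultrafilter `GG` on products
of two primes which is a limit of products of prime ultrafilters but not itself such a product.
-/

namespace Pool.Agent.X217.FEProd

open Filter Set

/-- The product of ultrafilters on the positive integers:
`A ∈ uMul F G ↔ {n | {m | n * m ∈ A} ∈ G} ∈ F`. -/
def uMul (F G : Ultrafilter ℕ+) : Ultrafilter ℕ+ := F.bind fun n => G.map (fun m => n * m)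

theorem mem_uMul (F G : Ultrafilter ℕ+) (A : Set ℕ+) :
    A ∈ uMul F G ↔ {n | {m | n * m ∈ A} ∈ G} ∈ F := Iff.rfl

/-- `F` divides `G` in the sense of `∣_M`: `G = H₁ · F · H₂` for some `H₁, H₂`. -/
def MDiv (F G : Ultrafilter ℕ+) : Prop := ∃ H₁ H₂ : Ultrafilter ℕ+, G = uMul (uMul H₁ F) H₂

/-- `A` is (multiplicatively) finitely embeddable in `B`: every finite subset of `A` has a
multiple inside `B`. -/
def FinEmb (A B : Set ℕ+) : Prop :=
  ∀ F : Finset ℕ+, (F : Set ℕ+) ⊆ A → ∃ k : ℕ+, ∀ x ∈ F, k * x ∈ B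

/-- Finite embeddability of ultrafilters: every `B ∈ G` finitely embeds some `A ∈ F`. -/
def FE (F G : Ultrafilter ℕ+) : Prop := ∀ B ∈ G, ∃ A ∈ F, FinEmb A B

/-- The set of positive integers with exactly `n` prime factors, counted with multiplicity. -/
def Lev (n : ℕ) : Set ℕ+ := {x | ArithmeticFunction.cardFactors (x : ℕ) = n}

/-- The set of primes. -/
def Pr : Set ℕ+ := {x | (x : ℕ).Prime}

theorem lev_zero {x : ℕ+} (h : x ∈ Lev 0) : x = 1 := by
  have h' : ArithmeticFunction.cardFactors (x : ℕ) = 0 := h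
  rw [ArithmeticFunction.cardFactors_eq_zero_iff_eq_zero_or_one] at h'
  rcases h' with h' | h'
  · exact absurd h' x.ne_zero
  · exact PNat.eq h'

theorem lev_one {x : ℕ+} : x ∈ Lev 1 ↔ x ∈ Pr :=
  ArithmeticFunction.cardFactors_eq_one_iff_prime

theorem cf_mul (x y : ℕ+) : ArithmeticFunction.cardFactors ((x * y : ℕ+) : ℕ) =
    ArithmeticFunction.cardFactors (x : ℕ) + ArithmeticFunction.cardFactors (y : ℕ) := by
  rw [PNat.mul_coe]
  exact ArithmeticFunction.cardFactors_mul x.ne_zero y.ne_zero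

theorem lev_split {A B : Ultrafilter ℕ+} {n : ℕ} (h : Lev n ∈ uMul A B) :
    ∃ a b, a + b = n ∧ Lev a ∈ A ∧ Lev b ∈ B := by
  have h' : {x | {y | x * y ∈ Lev n} ∈ B} ∈ A := h
  obtain ⟨x, hx⟩ := A.nonempty_of_mem h'
  have hx' : {y | x * y ∈ Lev n} ∈ B := hx
  obtain ⟨y0, hy0⟩ := B.nonempty_of_mem hx'
  have hy0' : ArithmeticFunction.cardFactors ((x * y0 : ℕ+) : ℕ) = n := hy0
  rw [cf_mul] at hy0'
  have hb : Lev (n - ArithmeticFunction.cardFactors (x : ℕ)) ∈ B := by
    filter_upwards [hx'] with y hy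
    have hy' : ArithmeticFunction.cardFactors ((x * y : ℕ+) : ℕ) = n := hy
    rw [cf_mul] at hy'
    show ArithmeticFunction.cardFactors (y : ℕ) = _
    omega
  set b := n - ArithmeticFunction.cardFactors (x : ℕ) with hbdef
  refine ⟨n - b, b, by omega, ?_, hb⟩
  filter_upwards [h'] with z hz
  have hz' : {y | z * y ∈ Lev n} ∈ B := hz
  obtain ⟨y, hy, hyb⟩ := B.nonempty_of_mem (inter_mem hz' hb)
  have hy' : ArithmeticFunction.cardFactors ((z * y : ℕ+) : ℕ) = n := hy
  rw [cf_mul] at hy'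
  have hyb' : ArithmeticFunction.cardFactors (y : ℕ) = b := hyb
  show ArithmeticFunction.cardFactors (z : ℕ) = n - b
  omega

theorem eq_pure_of_lev_zero {A : Ultrafilter ℕ+} (h : Lev 0 ∈ A) : A = pure 1 := by
  refine Ultrafilter.coe_injective (le_antisymm ?_ ?_ |> fun e => e)
  · intro S hS
    have h1 : (1 : ℕ+) ∈ S := hS
    exact mem_of_superset h (fun x hx => by rw [lev_zero hx]; exact h1)
  · intro S hS
    obtain ⟨x, hx, hx0⟩ := A.nonempty_of_mem (inter_mem (show S ∈ A from hS) h)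
    rw [lev_zero hx0] at hx
    exact hx

theorem uMul_one (A : Ultrafilter ℕ+) : uMul A (pure 1) = A := by
  apply Ultrafilter.coe_injective
  ext S
  show {n | {m | n * m ∈ S} ∈ (pure 1 : Ultrafilter ℕ+)} ∈ A ↔ S ∈ A
  have : {n : ℕ+ | {m | n * m ∈ S} ∈ (pure 1 : Ultrafilter ℕ+)} = S := by
    ext n
    show n * 1 ∈ S ↔ n ∈ S
    rw [mul_one]
  rw [this]

theorem one_uMul (A : Ultrafilter ℕ+) : uMul (pure 1) A = A := by
  apply Ultrafilter.coe_injective
  ext S
  show {m | 1 * m ∈ S} ∈ A ↔ S ∈ A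
  simp only [one_mul]
  rfl

theorem uMul_pure_comm (A : Ultrafilter ℕ+) (q : ℕ+) : uMul A (pure q) = uMul (pure q) A := by
  apply Ultrafilter.coe_injective
  ext S
  show {n | n * q ∈ S} ∈ A ↔ {m | q * m ∈ S} ∈ A
  simp only [mul_comm]

/-- The `i`-th prime. -/
noncomputable def P (i : ℕ) : ℕ+ := ⟨Nat.nth Nat.Prime i, (Nat.prime_nth_prime i).pos⟩

theorem P_prime (i : ℕ) : P i ∈ Pr := Nat.prime_nth_prime i

theorem P_strictMono : StrictMono P := fun _ _ h =>
  Nat.nth_strictMono Nat.infinite_setOf_prime h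

/-- The block of a prime: the fibres of `f` partition the primes into infinitely many infinite
sets. -/
noncomputable def f (q : ℕ+) : ℕ := (Nat.unpair (Function.invFun P q)).1

theorem f_P (i : ℕ) : f (P i) = (Nat.unpair i).1 := by
  unfold f
  rw [Function.leftInverse_invFun P_strictMono.injective i]

/-- The ultrafilter `FF` on primes. -/
noncomputable def FF : Ultrafilter ℕ+ := (hyperfilter ℕ).map P

/-- The ultrafilter `K n` on the primes of the `n`-th block. -/
noncomputable def K (n : ℕ) : Ultrafilter ℕ+ := (hyperfilter ℕ).map fun k => P (Nat.pair n k)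

/-- The limit of the products `FF · K n`. -/
noncomputable def GG : Ultrafilter ℕ+ := (hyperfilter ℕ).bind fun n => uMul FF (K n)

theorem FF_prime : Pr ∈ FF := by
  show P ⁻¹' Pr ∈ hyperfilter ℕ
  exact mem_of_superset univ_mem fun i _ => P_prime i

theorem K_prime (n : ℕ) : Pr ∈ K n := by
  show (fun k => P (Nat.pair n k)) ⁻¹' Pr ∈ hyperfilter ℕ
  exact mem_of_superset univ_mem fun i _ => P_prime _

theorem K_f (n : ℕ) : {q | f q = n} ∈ K n := by
  show (fun k => P (Nat.pair n k)) ⁻¹' {q | f q = n} ∈ hyperfilter ℕ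
  refine mem_of_superset univ_mem fun k _ => ?_
  show f (P (Nat.pair n k)) = n
  rw [f_P, Nat.unpair_pair]

theorem P_ge (i : ℕ) : i < (P i : ℕ) := by
  induction i with
  | zero => exact (P 0).pos
  | succ i ih =>
    have h : (P i : ℕ) < P (i + 1) := P_strictMono (Nat.lt_succ_self i)
    omega

theorem FF_large (n : ℕ) : {p : ℕ+ | n < (p : ℕ)} ∈ FF := by
  show P ⁻¹' _ ∈ hyperfilter ℕ
  have : {k : ℕ | n ≤ k} ∈ hyperfilter ℕ := Nat.hyperfilter_le_atTop (Ici_mem_atTop _)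
  exact mem_of_superset this fun k hk => lt_of_le_of_lt hk (P_ge k)

theorem K_large (n m : ℕ) : {p : ℕ+ | m < (p : ℕ)} ∈ K n := by
  show (fun k => P (Nat.pair n k)) ⁻¹' _ ∈ hyperfilter ℕ
  have : {k : ℕ | m ≤ k} ∈ hyperfilter ℕ := Nat.hyperfilter_le_atTop (Ici_mem_atTop _)
  refine mem_of_superset this fun k hk => ?_
  have h1 : m ≤ k := hk
  have h2 : k ≤ Nat.pair n k := Nat.right_le_pair n k
  have h3 := P_ge (Nat.pair n k)
  show m < (P (Nat.pair n k) : ℕ)
  omega

/-- Products `p * q` of primes with `p < q` and `f q < p`. -/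
def X : Set ℕ+ := {x | ∃ p q : ℕ+, p ∈ Pr ∧ q ∈ Pr ∧ p < q ∧ x = p * q ∧ f q < (p : ℕ)}

/-- Products `p * q` of primes with `p < q` and `f q ≠ c`. -/
def Z (c : ℕ) : Set ℕ+ := {x | ∃ p q : ℕ+, p ∈ Pr ∧ q ∈ Pr ∧ p < q ∧ x = p * q ∧ f q ≠ c}

theorem prime_factor_unique {p q p' q' : ℕ+} (hp : p ∈ Pr) (hp' : p' ∈ Pr)
    (hq' : q' ∈ Pr) (h : p < q) (h' : p' < q') (e : p * q = p' * q') : p = p' ∧ q = q' := by
  have e' : (p : ℕ) * q = p' * q' := by
    have := congrArg PNat.val e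
    simpa using this
  have hdvd : (p : ℕ) ∣ p' * q' := e' ▸ Dvd.intro _ rfl
  rcases (Nat.Prime.dvd_mul hp).1 hdvd with hd | hd
  · have h1 : (p : ℕ) = p' := (Nat.prime_dvd_prime_iff_eq hp hp').1 hd
    have h2 : p = p' := PNat.eq h1
    subst h2
    exact ⟨rfl, mul_left_cancel e⟩
  · have h1 : (p : ℕ) = q' := (Nat.prime_dvd_prime_iff_eq hp hq').1 hd
    have h2 : p = q' := PNat.eq h1
    subst h2
    rw [mul_comm p' p] at e
    have h3 : q = p' := mul_left_cancel e
    subst h3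
    exact absurd (h.trans h') (lt_irrefl _)

theorem X_mem : X ∈ GG := by
  show {n | X ∈ uMul FF (K n)} ∈ hyperfilter ℕ
  refine mem_of_superset univ_mem fun n _ => ?_
  show {p | {q | p * q ∈ X} ∈ K n} ∈ FF
  filter_upwards [FF_prime, FF_large n] with p hp hpn
  show {q | p * q ∈ X} ∈ K n
  filter_upwards [K_prime n, K_f n, K_large n p] with q hq hqn hpq
  refine ⟨p, q, hp, hq, hpq, rfl, ?_⟩
  have : f q = n := hqn
  rw [this]; exact hpn

theorem Z_mem (c : ℕ) : Z c ∈ GG := by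
  show {n | Z c ∈ uMul FF (K n)} ∈ hyperfilter ℕ
  have hc : {n : ℕ | c + 1 ≤ n} ∈ hyperfilter ℕ := Nat.hyperfilter_le_atTop (Ici_mem_atTop _)
  refine mem_of_superset hc fun n hn => ?_
  have hn' : c + 1 ≤ n := hn
  show {p | {q | p * q ∈ Z c} ∈ K n} ∈ FF
  filter_upwards [FF_prime] with p hp
  show {q | p * q ∈ Z c} ∈ K n
  filter_upwards [K_prime n, K_f n, K_large n p] with q hq hqn hpq
  refine ⟨p, q, hp, hq, hpq, rfl, ?_⟩
  have : f q = n := hqn
  rw [this]; omega

theorem Lev_two_mem : Lev 2 ∈ GG := by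
  refine mem_of_superset X_mem ?_
  rintro x ⟨p, q, hp, hq, -, rfl, -⟩
  show ArithmeticFunction.cardFactors ((p * q : ℕ+) : ℕ) = 2
  rw [cf_mul, show ArithmeticFunction.cardFactors (p : ℕ) = 1 from lev_one.2 hp,
    show ArithmeticFunction.cardFactors (q : ℕ) = 1 from lev_one.2 hq]

/-- Nonprincipal second factor. -/
theorem not_prod_aux {A B : Ultrafilter ℕ+} (hA : Pr ∈ A) (hB : Pr ∈ B)
    (hlarge : ∀ p : ℕ+, {q | p < q} ∈ B) : uMul A B ≠ GG := by
  intro e
  have hX : {p | {q | p * q ∈ X} ∈ B} ∈ A := by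
    show X ∈ uMul A B
    rw [e]; exact X_mem
  obtain ⟨p, hp, hpX⟩ := A.nonempty_of_mem (inter_mem hA hX)
  have hpX' : {q | p * q ∈ X} ∈ B := hpX
  have hbdd : {i | i < (p : ℕ)} ∈ B.map f := by
    show {q | f q < (p : ℕ)} ∈ B
    filter_upwards [hB, hlarge p, hpX'] with q hq hpq hX
    obtain ⟨p', q', hp', hq', hlt, heq, hf⟩ := hX
    obtain ⟨h1, h2⟩ := prime_factor_unique hp hp' hq' hpq hlt heq
    rw [h1, h2]; exact hf
  obtain ⟨c, -, hc⟩ := Ultrafilter.eq_pure_of_finite_mem (Set.finite_lt_nat (p : ℕ)) hbdd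
  have hc' : {q | f q = c} ∈ B := by
    have : {c} ∈ B.map f := by rw [hc]; exact mem_singleton c
    exact this
  have hZ : {p | {q | p * q ∈ Z c} ∈ B} ∈ A := by
    show Z c ∈ uMul A B
    rw [e]; exact Z_mem c
  obtain ⟨p1, hp1, hpZ⟩ := A.nonempty_of_mem (inter_mem hA hZ)
  have hpZ' : {q | p1 * q ∈ Z c} ∈ B := hpZ
  obtain ⟨q, ⟨⟨hq, hpq⟩, hfq⟩, hZq⟩ :=
    B.nonempty_of_mem (inter_mem (inter_mem (inter_mem hB (hlarge p1)) hc') hpZ')
  obtain ⟨p', q', hp', hq', hlt, heq, hf⟩ := hZq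
  obtain ⟨h1, h2⟩ := prime_factor_unique hp1 hp' hq' hpq hlt heq
  exact hf (h2 ▸ hfq)

theorem principal_or_large (B : Ultrafilter ℕ+) :
    (∃ q, B = pure q) ∨ ∀ p : ℕ+, {q | p < q} ∈ B := by
  by_cases h : ∀ p : ℕ+, {q | p < q} ∈ B
  · exact Or.inr h
  · left
    push Not at h
    obtain ⟨p, hp⟩ := h
    have h1 : {q | p < q}ᶜ ∈ B := (Ultrafilter.compl_mem_iff_notMem).2 hp
    have h2 : ({q : ℕ+ | p < q}ᶜ : Set ℕ+).Finite := by
      have : ({q : ℕ+ | p < q}ᶜ : Set ℕ+) = Set.Iic p := by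
        ext q
        show ¬ p < q ↔ q ≤ p
        exact not_lt
      rw [this]
      exact Set.finite_Iic p
    obtain ⟨q, -, hq⟩ := Ultrafilter.eq_pure_of_finite_mem h2 h1
    exact ⟨q, hq⟩

/-- `GG` is not a product of two prime ultrafilters. -/
theorem not_prod {A B : Ultrafilter ℕ+} (hA : Pr ∈ A) (hB : Pr ∈ B) : uMul A B ≠ GG := by
  rcases principal_or_large B with ⟨q, rfl⟩ | hl
  · rw [uMul_pure_comm]
    rcases principal_or_large A with ⟨p, rfl⟩ | hl
    · intro e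
      have h1 : q * p ∈ X := by
        have h : X ∈ uMul (pure q) (pure p) := e ▸ X_mem
        exact h
      obtain ⟨p', q', hp', hq', hlt, heq, hf⟩ := h1
      have h2 : q * p ∈ Z (f q') := by
        have h : Z (f q') ∈ uMul (pure q) (pure p) := e ▸ Z_mem (f q')
        exact h
      obtain ⟨p'', q'', hp'', hq'', hlt', heq', hf'⟩ := h2
      have := prime_factor_unique hp' hp'' hq'' hlt hlt' (heq.symm.trans heq')
      exact hf' (by rw [this.2])
    · exact not_prod_aux hB hA hl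
  · exact not_prod_aux hA hB hl

theorem FF_FE : FE FF GG := by
  classical
  intro B hB
  have hB' : {n | B ∈ uMul FF (K n)} ∈ hyperfilter ℕ := hB
  obtain ⟨n, hn⟩ := (hyperfilter ℕ).nonempty_of_mem hB'
  have hn' : {x | {y | x * y ∈ B} ∈ K n} ∈ FF := hn
  refine ⟨_, hn', fun S hS => ?_⟩
  have h1 : (⋂ x ∈ S, {y | x * y ∈ B}) ∈ K n :=
    (Filter.biInter_finset_mem S).2 fun x hx => hS hx
  obtain ⟨k, hk⟩ := (K n).nonempty_of_mem h1
  refine ⟨k, fun x hx => ?_⟩
  have := mem_iInter₂.1 hk x hx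
  rw [mul_comm]
  exact this

theorem not_GG_FE : ¬ FE GG FF := by
  intro h
  obtain ⟨A, hA, hAB⟩ := h Pr FF_prime
  obtain ⟨x, hxA, hx2⟩ := GG.nonempty_of_mem (inter_mem hA Lev_two_mem)
  obtain ⟨k, hk⟩ := hAB {x} (by rw [Finset.coe_singleton]; exact singleton_subset_iff.2 hxA)
  have h1 : k * x ∈ Lev 1 := lev_one.2 (hk x (Finset.mem_singleton_self x))
  have h2 : ArithmeticFunction.cardFactors ((k * x : ℕ+) : ℕ) = 1 := h1
  rw [cf_mul, show ArithmeticFunction.cardFactors (x : ℕ) = 2 from hx2] at h2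
  omega

/-- Every `∣_M`-divisor of `GG` is `1` or `GG` itself. -/
theorem mdiv_GG {H : Ultrafilter ℕ+} (h : MDiv H GG) : H = pure 1 ∨ H = GG := by
  obtain ⟨H₁, H₂, e⟩ := h
  have h2 : Lev 2 ∈ uMul (uMul H₁ H) H₂ := e ▸ Lev_two_mem
  obtain ⟨s, c, hs, hS, hC⟩ := lev_split h2
  obtain ⟨a, b, hab, hA, hB⟩ := lev_split hS
  by_cases hb0 : b = 0
  · left
    subst hb0
    exact eq_pure_of_lev_zero hB
  · right
    by_cases ha0 : a = 0
    · subst ha0
      have e1 : H₁ = pure 1 := eq_pure_of_lev_zero hA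
      subst e1
      rw [one_uMul] at e
      by_cases hc0 : c = 0
      · subst hc0
        have e2 : H₂ = pure 1 := eq_pure_of_lev_zero hC
        subst e2
        rw [uMul_one] at e
        exact e.symm
      · exfalso
        have hb1 : b = 1 := by omega
        have hc1 : c = 1 := by omega
        subst hb1 hc1
        refine not_prod (A := H) (B := H₂) ?_ ?_ e.symm
        · exact mem_of_superset hB fun x hx => lev_one.1 hx
        · exact mem_of_superset hC fun x hx => lev_one.1 hx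
    · exfalso
      have ha1 : a = 1 := by omega
      have hb1 : b = 1 := by omega
      have hc0 : c = 0 := by omega
      subst ha1 hb1 hc0
      have e2 : H₂ = pure 1 := eq_pure_of_lev_zero hC
      subst e2
      rw [uMul_one] at e
      refine not_prod (A := H₁) (B := H) ?_ ?_ e.symm
      · exact mem_of_superset hA fun x hx => lev_one.1 hx
      · exact mem_of_superset hB fun x hx => lev_one.1 hx

theorem FF_ne_one : FF ≠ pure 1 := by
  intro h
  have h1 : Pr ∈ (pure 1 : Ultrafilter ℕ+) := h ▸ FF_prime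
  have h2 : (1 : ℕ+) ∈ Pr := h1
  exact Nat.not_prime_one h2

theorem GG_ne_one : GG ≠ pure 1 := by
  intro h
  have h1 : Lev 2 ∈ (pure 1 : Ultrafilter ℕ+) := h ▸ Lev_two_mem
  have h2 : (1 : ℕ+) ∈ Lev 2 := h1
  have h3 : ArithmeticFunction.cardFactors ((1 : ℕ+) : ℕ) = 2 := h2
  simp at h3

theorem FF_ne_GG : FF ≠ GG := by
  intro h
  obtain ⟨x, hx, hx2⟩ := GG.nonempty_of_mem (inter_mem (h ▸ FF_prime) Lev_two_mem)
  have h1 : ArithmeticFunction.cardFactors (x : ℕ) = 1 := lev_one.2 hx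
  have h2 : ArithmeticFunction.cardFactors (x : ℕ) = 2 := hx2
  omega

end Pool.Agent.X217.FEProd
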