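import Mathlib

/-!
# Independent families, maximal filters over which they stay independent, transfinite recursion
-/

namespace Pool.Agent.X217.Indep

open Filter Set Cardinal

universe u v

/-! ### transfinite recursion with invariants -/

/-- Transfinite recursion along a well-order with a property of each value relative to the history. -/
theorem exists_rec {κ : Type u} [LinearOrder κ] [WellFoundedLT κ] {S : Type v} [Nonempty S]
    (Good : (ξ : κ) → ((η : κ) → η < ξ → S) → S → Prop)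
    (h : ∀ (ξ : κ) (f : κ → S), (∀ η < ξ, Good η (fun ζ _ => f ζ) (f η)) →
      ∃ s, Good ξ (fun ζ _ => f ζ) s) :
    ∃ f : κ → S, ∀ ξ, Good ξ (fun ζ _ => f ζ) (f ξ) := by
  classical
  let d : S := Classical.arbitrary S
  let F : (ξ : κ) → ((η : κ) → η < ξ → S) → S := fun ξ prev =>
    if h : ∃ s, Good ξ prev s then h.choose else d
  let f : κ → S := (wellFounded_lt (α := κ)).fix F
  have hf : ∀ ξ, f ξ = F ξ (fun η _ => f η) := fun ξ => (wellFounded_lt (α := κ)).fix_eq F ξ
  refine ⟨f, fun ξ => ?_⟩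
  induction ξ using WellFoundedLT.induction with
  | ind ξ ih =>
    have hex := h ξ f ih
    have h1 : f ξ = hex.choose := by
      rw [hf ξ]
      exact dif_pos hex
    rw [h1]
    exact hex.choose_spec

/-! ### independent families -/

variable {K : Type u}

/-- The Boolean combination of the members of `I` attached to a finite partial function. -/
def B (I : K → Set ℕ) (s : Finset K) (e : K → Bool) : Set ℕ :=
  {n | ∀ ξ ∈ s, (n ∈ I ξ ↔ e ξ = true)}

theorem B_mono {I : K → Set ℕ} {s s' : Finset K} {e e' : K → Bool} (h : s ⊆ s')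
    (he : ∀ ξ ∈ s, e' ξ = e ξ) : B I s' e' ⊆ B I s e := fun n hn ξ hξ => by
  have := hn ξ (h hξ)
  rwa [he ξ hξ] at this

theorem exists_indep (A : K → Set ℕ) (hA : Function.Injective A) :
    ∃ I : K → Set ℕ, ∀ s e, (B I s e).Infinite := by
  classical
  let φ : (Finset ℕ × Finset (Finset ℕ)) ≃ ℕ := Denumerable.eqv _
  let tr : K → ℕ → Finset ℕ := fun ξ m => (Finset.range m).filter fun k => k ∈ A ξ
  refine ⟨fun ξ => {n | ((φ.symm n).1.filter fun k => k ∈ A ξ) ∈ (φ.symm n).2}, fun s e => ?_⟩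
  -- a bound separating the traces
  have hsep : ∀ ξ η : K, ξ ≠ η → ∃ k, ¬ (k ∈ A ξ ↔ k ∈ A η) := by
    intro ξ η h
    by_contra hcon
    push Not at hcon
    exact h (hA (Set.ext hcon))
  let d : K → K → ℕ := fun ξ η => if h : ∃ k, ¬ (k ∈ A ξ ↔ k ∈ A η) then h.choose + 1 else 0
  let m : ℕ := (s ×ˢ s).sup fun p => d p.1 p.2
  have hm : ∀ ξ ∈ s, ∀ η ∈ s, ∀ m', m ≤ m' → tr ξ m' = tr η m' → ξ = η := by
    intro ξ hξ η hη m' hm' htr
    by_contra hne
    have hex := hsep ξ η hne
    have h1 : d ξ η = hex.choose + 1 := dif_pos hex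
    have h2 : d ξ η ≤ m := Finset.le_sup (f := fun p : K × K => d p.1 p.2)
      (Finset.mk_mem_product hξ hη)
    apply hex.choose_spec
    have h3 : hex.choose < m' := by omega
    have h4 : hex.choose ∈ tr ξ m' ↔ hex.choose ∈ tr η m' := by rw [htr]
    simpa [tr, h3] using h4
  refine Set.infinite_of_injective_forall_mem
    (f := fun i : ℕ => φ (Finset.range (m + i),
      (s.filter fun ξ => e ξ = true).image fun ξ => tr ξ (m + i))) ?_ ?_
  · intro i j hij
    have h1 := φ.injective hij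
    have h2 := congrArg (fun p => p.1.card) h1
    simp only [Finset.card_range] at h2
    omega
  · intro i ξ hξ
    show ((φ.symm (φ _)).1.filter fun k => k ∈ A ξ) ∈ (φ.symm (φ _)).2 ↔ _
    rw [Equiv.symm_apply_apply]
    show tr ξ (m + i) ∈ (s.filter fun ξ => e ξ = true).image (fun ξ => tr ξ (m + i)) ↔ _
    rw [Finset.mem_image]
    constructor
    · rintro ⟨η, hη, h⟩
      rw [Finset.mem_filter] at hη
      have := hm η hη.1 ξ hξ (m + i) (by omega) h
      rw [← this]; exact hη.2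
    · intro h
      exact ⟨ξ, Finset.mem_filter.2 ⟨hξ, h⟩, rfl⟩

/-- The members of `I` with indices in `T` are independent modulo `F`. -/
def Ind (I : K → Set ℕ) (T : Set K) (F : Filter ℕ) : Prop :=
  ∀ (s : Finset K) (e : K → Bool), (s : Set K) ⊆ T → ∃ᶠ n in F, n ∈ B I s e

theorem Ind.mono {I : K → Set ℕ} {T T' : Set K} {F : Filter ℕ} (h : Ind I T F) (hT : T' ⊆ T) :
    Ind I T' F := fun s e hs => h s e (hs.trans hT)

theorem Ind.neBot {I : K → Set ℕ} {T : Set K} {F : Filter ℕ} (h : Ind I T F) : NeBot F := by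
  refine ⟨fun hbot => ?_⟩
  apply h ∅ (fun _ => true) (by simp)
  rw [hbot]
  exact eventually_bot

/-- Every filter over which the family is independent extends to a maximal one. -/
theorem exists_max (I : K → Set ℕ) (T : Set K) (F₀ : Filter ℕ) (hI : Ind I T F₀) :
    ∃ F : Filter ℕ, F ≤ F₀ ∧ Ind I T F ∧
      ∀ X : Set ℕ, X ∈ F ∨ ∃ (s : Finset K) (e : K → Bool), (s : Set K) ⊆ T ∧
        ∀ᶠ n in F, n ∈ X → n ∉ B I s e := by
  let Qf : Set (Filter ℕ)ᵒᵈ := {F | Ind I T (OrderDual.ofDual F)}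
  have h0 : OrderDual.toDual F₀ ∈ Qf := hI
  obtain ⟨M, hM1, hM2⟩ := zorn_le_nonempty₀ Qf (by
    intro c hc hchain y hy
    refine ⟨OrderDual.toDual (⨅ G ∈ c, (OrderDual.ofDual G : Filter ℕ)), ?_, ?_⟩
    · have hdir : DirectedOn ((fun G : (Filter ℕ)ᵒᵈ => OrderDual.ofDual G) ⁻¹'o (· ≥ ·)) c := by
        intro a ha b hb
        rcases hchain.total ha hb with h | h
        · exact ⟨b, hb, h, le_refl _⟩
        · exact ⟨a, ha, le_refl _, h⟩
      intro s e hs hcon
      have h1 : (B I s e)ᶜ ∈ ⨅ G ∈ c, (OrderDual.ofDual G : Filter ℕ) := hcon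
      rw [mem_biInf_of_directed hdir ⟨y, hy⟩] at h1
      obtain ⟨a, ha, h2⟩ := h1
      exact hc ha s e hs h2
    · intro z hz
      exact iInf₂_le (f := fun (G : (Filter ℕ)ᵒᵈ) (_ : G ∈ c) => (OrderDual.ofDual G : Filter ℕ))
        z hz) _ h0
  refine ⟨OrderDual.ofDual M, hM1, hM2.1, fun X => ?_⟩
  by_cases hX : OrderDual.toDual (OrderDual.ofDual M ⊓ 𝓟 X) ∈ Qf
  · left
    have h1 : M ≤ OrderDual.toDual (OrderDual.ofDual M ⊓ 𝓟 X) :=
      show OrderDual.ofDual M ⊓ 𝓟 X ≤ OrderDual.ofDual M from inf_le_left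
    have h2 : OrderDual.toDual (OrderDual.ofDual M ⊓ 𝓟 X) ≤ M := hM2.2 hX h1
    have h3 : OrderDual.ofDual M ≤ OrderDual.ofDual M ⊓ 𝓟 X := h2
    exact h3 (mem_inf_of_right (mem_principal_self X))
  · right
    have h1 : ¬ Ind I T (OrderDual.ofDual M ⊓ 𝓟 X) := hX
    unfold Ind at h1
    push Not at h1
    obtain ⟨s, e, hs, h2⟩ := h1
    refine ⟨s, e, hs, ?_⟩
    exact eventually_inf_principal.1 h2

/-- Adding a Boolean combination to the filter. -/
theorem Ind.add {I : K → Set ℕ} {T : Set K} {F : Filter ℕ} (h : Ind I T F) (s : Finset K)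
    (e : K → Bool) (hs : (s : Set K) ⊆ T) : Ind I (T \ s) (F ⊓ 𝓟 (B I s e)) := by
  classical
  intro s' e' hs' hcon
  have h1 : ∀ᶠ n in F, n ∈ B I s e → n ∉ B I s' e' := eventually_inf_principal.1 hcon
  apply h (s ∪ s') (fun ξ => if ξ ∈ s then e ξ else e' ξ) (by
    intro ξ hξ
    rcases Finset.mem_union.1 (Finset.mem_coe.1 hξ) with h | h
    · exact hs h
    · exact (hs' h).1)
  filter_upwards [h1] with n hn hB
  refine hn (B_mono Finset.subset_union_left (fun ξ hξ => if_pos hξ) hB)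
    (B_mono Finset.subset_union_right (fun ξ hξ => if_neg ?_) hB)
  exact fun hξs => (hs' hξ).2 hξs

end Pool.Agent.X217.Indep
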