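import Mathlib
import Pool.Agent.X217.Indep

/-!
# A countably compact directed set of Hausdorff ultrafilters, under CH
-/

namespace Pool.Agent.X217.CC

open Filter Set Cardinal Pool.Agent.X217.Indep

abbrev BN : Type := Ultrafilter ℕ

/-! ### separating sequences of ultrafilters -/

/-- A sequence of ultrafilters has a constant subsequence or one with pairwise disjoint members. -/
theorem const_or_disjoint (z : ℕ → BN) {P : Set ℕ} (hP : P.Infinite) :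
    ∃ A ⊆ P, A.Infinite ∧ ((∃ u, ∀ n ∈ A, z n = u) ∨
      ∃ W : ℕ → Set ℕ, (∀ n ∈ A, W n ∈ z n) ∧ ∀ n ∈ A, ∀ m ∈ A, n ≠ m → Disjoint (W n) (W m)) := by
  classical
  by_cases hc : ∃ u, {n | n ∈ P ∧ z n = u}.Infinite
  · obtain ⟨u, hu⟩ := hc
    exact ⟨_, fun n hn => hn.1, hu, Or.inl ⟨u, fun n hn => hn.2⟩⟩
  push Not at hc
  -- one step
  have hstep : ∀ Q : Set ℕ, Q ⊆ P → Q.Infinite → ∃ n ∈ Q, ∃ W ∈ z n, {m | m ∈ Q ∧ n < m ∧ W ∉ z m}.Infinite := by
    intro Q hQP hQ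
    obtain ⟨n₀, hn₀⟩ := hQ.nonempty
    have h1 : (Q \ {n | n ∈ P ∧ z n = z n₀}).Infinite := hQ.sdiff (hc (z n₀))
    obtain ⟨n₁, hn₁, hne⟩ := h1.nonempty
    have hne' : z n₁ ≠ z n₀ := fun h => hne ⟨hQP hn₁, h⟩
    obtain ⟨W, hW0, hW1⟩ : ∃ W, W ∈ z n₀ ∧ W ∉ z n₁ := by
      by_contra hcon
      push Not at hcon
      exact hne' (Ultrafilter.coe_le_coe.1 fun s hs => hcon s hs)
    have hW1' : Wᶜ ∈ z n₁ := (Ultrafilter.compl_mem_iff_notMem).2 hW1
    by_cases h2 : {m | m ∈ Q ∧ W ∉ z m}.Infinite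
    · refine ⟨n₀, hn₀, W, hW0, (h2.sdiff (Set.finite_Iic n₀)).mono ?_⟩
      rintro m ⟨⟨hm1, hm2⟩, hm3⟩
      exact ⟨hm1, not_le.1 hm3, hm2⟩
    · have h3 : {m | m ∈ Q ∧ Wᶜ ∉ z m}.Infinite := by
        have h4 : (Q \ {m | m ∈ Q ∧ W ∉ z m}).Infinite := hQ.sdiff (not_infinite.1 h2)
        refine h4.mono ?_
        rintro m ⟨hm1, hm2⟩
        refine ⟨hm1, fun h5 => ?_⟩
        exact hm2 ⟨hm1, (Ultrafilter.compl_mem_iff_notMem).1 h5⟩
      refine ⟨n₁, hn₁, Wᶜ, hW1', (h3.sdiff (Set.finite_Iic n₁)).mono ?_⟩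
      rintro m ⟨⟨hm1, hm2⟩, hm3⟩
      exact ⟨hm1, not_le.1 hm3, hm2⟩
  choose! nx hnx1 Wx hWx hinf using hstep
  let Q : ℕ → Set ℕ := fun k => Nat.rec P (fun _ Q => {m | m ∈ Q ∧ nx Q < m ∧ Wx Q ∉ z m}) k
  have hQs : ∀ k, Q (k + 1) = {m | m ∈ Q k ∧ nx (Q k) < m ∧ Wx (Q k) ∉ z m} := fun k => rfl
  have hQ : ∀ k, Q k ⊆ P ∧ (Q k).Infinite := by
    intro k
    induction k with
    | zero => exact ⟨Subset.refl _, hP⟩
    | succ k ih =>
      rw [hQs]
      exact ⟨fun m hm => ih.1 hm.1, hinf _ ih.1 ih.2⟩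
  have hQanti : ∀ k l, k ≤ l → Q l ⊆ Q k := by
    intro k l hkl
    induction hkl with
    | refl => exact Subset.refl _
    | step _ ih =>
      rw [hQs]
      exact fun m hm => ih hm.1
  let n : ℕ → ℕ := fun k => nx (Q k)
  have hn : ∀ k, n k ∈ Q k := fun k => hnx1 _ (hQ k).1 (hQ k).2
  have hlater : ∀ j k, j < k → n j < n k ∧ Wx (Q j) ∉ z (n k) := by
    intro j k hjk
    have h1 : n k ∈ Q (j + 1) := hQanti _ _ hjk (hn k)
    rw [hQs] at h1
    exact ⟨h1.2.1, h1.2.2⟩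
  have hmono : StrictMono n := strictMono_nat_of_lt_succ fun k => (hlater k (k + 1) (Nat.lt_succ_self k)).1
  let V : ℕ → Set ℕ := fun k => Wx (Q k) \ ⋃ j ∈ Finset.range k, Wx (Q j)
  have hV : ∀ k, V k ∈ z (n k) := by
    intro k
    have h1 : Wx (Q k) ∈ z (n k) := hWx _ (hQ k).1 (hQ k).2
    have h2 : (⋂ j ∈ Finset.range k, (Wx (Q j))ᶜ) ∈ z (n k) := by
      refine (Filter.biInter_finset_mem _).2 fun j hj => ?_
      exact (Ultrafilter.compl_mem_iff_notMem).2 (hlater j k (Finset.mem_range.1 hj)).2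
    refine mem_of_superset (inter_mem h1 h2) ?_
    rintro x ⟨hx1, hx2⟩
    refine ⟨hx1, fun hx3 => ?_⟩
    obtain ⟨j, hj, hx4⟩ := mem_iUnion₂.1 hx3
    exact mem_iInter₂.1 hx2 j hj hx4
  have hdisj : ∀ j k, j < k → Disjoint (V j) (V k) := by
    intro j k hjk
    rw [Set.disjoint_left]
    rintro x ⟨hx1, -⟩ ⟨-, hx2⟩
    exact hx2 (mem_iUnion₂.2 ⟨j, Finset.mem_range.2 hjk, hx1⟩)
  refine ⟨range n, ?_, Set.infinite_range_of_injective hmono.injective, Or.inr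
    ⟨fun m => V (Function.invFun n m), ?_, ?_⟩⟩
  · rintro _ ⟨k, rfl⟩
    exact (hQ k).1 (hn k)
  · rintro _ ⟨k, rfl⟩
    show V (Function.invFun n (n k)) ∈ z (n k)
    rw [Function.leftInverse_invFun hmono.injective]
    exact hV k
  · rintro _ ⟨k, rfl⟩ _ ⟨l, rfl⟩ hkl
    show Disjoint (V (Function.invFun n (n k))) (V (Function.invFun n (n l)))
    rw [Function.leftInverse_invFun hmono.injective, Function.leftInverse_invFun hmono.injective]
    rcases lt_trichotomy k l with h | h | h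
    · exact hdisj k l h
    · exact absurd (congrArg n h) hkl
    · exact (hdisj l k h).symm

/-- Splitting an infinite set into infinitely many infinite sets. -/
theorem exists_split {A : Set ℕ} (hA : A.Infinite) : ∃ D : ℕ → Set ℕ, (∀ i, D i ⊆ A) ∧
    (∀ i, (D i).Infinite) ∧ ∀ i j, i ≠ j → Disjoint (D i) (D j) := by
  classical
  let e := hA.natEmbedding
  have hinj : Function.Injective fun n => (e n : ℕ) := fun a b h => e.injective (Subtype.ext h)
  refine ⟨fun i => range fun k => (e (Nat.pair i k) : ℕ), fun i => ?_, fun i => ?_, ?_⟩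
  · rintro _ ⟨k, rfl⟩
    exact (e (Nat.pair i k)).2
  · refine Set.infinite_range_of_injective fun a b h => ?_
    have h1 : Nat.pair i a = Nat.pair i b := hinj h
    exact (Nat.pair_eq_pair.1 h1).2
  · intro i j hij
    rw [Set.disjoint_left]
    rintro _ ⟨k, rfl⟩ ⟨l, h⟩
    have h1 : Nat.pair j l = Nat.pair i k := hinj h
    exact hij (Nat.pair_eq_pair.1 h1).1.symm

/-- The case of a sequence with pairwise disjoint members. -/
theorem sep_of_disjoint {x y : ℕ → BN} {A : Set ℕ} (hA : A.Infinite) (hne : ∀ n ∈ A, x n ≠ y n)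
    (W₀ : ℕ → Set ℕ) (hW₀ : ∀ n ∈ A, W₀ n ∈ x n)
    (hd₀ : ∀ n ∈ A, ∀ m ∈ A, n ≠ m → Disjoint (W₀ n) (W₀ m)) :
    ∃ A' ⊆ A, A'.Infinite ∧ ∃ B : Set ℕ, ∀ n ∈ A', B ∈ x n ∧ B ∉ y n := by
  classical
  -- shrink the members
  have h1 : ∀ n ∈ A, ∃ W : Set ℕ, W ⊆ W₀ n ∧ W ∈ x n ∧ W ∉ y n := by
    intro n hn
    obtain ⟨C, hC1, hC2⟩ : ∃ C, C ∈ x n ∧ C ∉ y n := by
      by_contra hcon
      push Not at hcon
      exact hne n hn (Ultrafilter.coe_le_coe.1 fun s hs => hcon s hs).symm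
    refine ⟨W₀ n ∩ C, inter_subset_left, inter_mem (hW₀ n hn) hC1, fun h => hC2 ?_⟩
    exact mem_of_superset h inter_subset_right
  choose! W hWs hWx hWy using h1
  have hd : ∀ n ∈ A, ∀ m ∈ A, n ≠ m → Disjoint (W n) (W m) := fun n hn m hm hnm =>
    (hd₀ n hn m hm hnm).mono (hWs n hn) (hWs m hm)
  obtain ⟨D, hDA, hDi, hDd⟩ := exists_split hA
  by_cases hc : ∃ i, {m | m ∈ D i ∧ (⋃ n ∈ D i, W n) ∉ y m}.Infinite
  · obtain ⟨i, hi⟩ := hc
    refine ⟨_, fun m hm => hDA i hm.1, hi, ⋃ n ∈ D i, W n, fun m hm => ⟨?_, hm.2⟩⟩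
    refine mem_of_superset (hWx m (hDA i hm.1)) ?_
    intro k hk
    exact mem_iUnion₂.2 ⟨m, hm.1, hk⟩
  · push Not at hc
    have h2 : ∀ i, ∃ m ∈ D i, (⋃ n ∈ D i, W n) ∈ y m := by
      intro i
      have h3 : (D i \ {m | m ∈ D i ∧ (⋃ n ∈ D i, W n) ∉ y m}).Infinite := (hDi i).sdiff (hc i)
      obtain ⟨m, hm1, hm2⟩ := h3.nonempty
      refine ⟨m, hm1, ?_⟩
      by_contra hcon
      exact hm2 ⟨hm1, hcon⟩
    choose m hm1 hm2 using h2
    have hminj : Function.Injective m := by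
      intro i j hij
      by_contra hne'
      exact Set.disjoint_left.1 (hDd i j hne') (hm1 i) (hij ▸ hm1 j)
    refine ⟨range m, ?_, Set.infinite_range_of_injective hminj, ⋃ i, W (m i), ?_⟩
    · rintro _ ⟨i, rfl⟩
      exact hDA i (hm1 i)
    · rintro _ ⟨i, rfl⟩
      refine ⟨mem_of_superset (hWx _ (hDA i (hm1 i))) (subset_iUnion (fun i => W (m i)) i), ?_⟩
      intro hcon
      apply hWy (m i) (hDA i (hm1 i))
      refine mem_of_superset (inter_mem hcon (hm2 i)) ?_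
      rintro k ⟨hk1, hk2⟩
      obtain ⟨j, hj⟩ := mem_iUnion.1 hk1
      obtain ⟨n, hn, hkn⟩ := mem_iUnion₂.1 hk2
      have h4 : m j = n := by
        by_contra hne'
        exact Set.disjoint_left.1 (hd _ (hDA j (hm1 j)) _ (hDA i hn) hne') hj hkn
      have h5 : j = i := by
        by_contra hne'
        exact Set.disjoint_left.1 (hDd j i hne') (hm1 j) (h4 ▸ hn)
      rw [h5] at hj
      exact hj

/-- Either equal on an infinite subset or separated by one set on an infinite subset. -/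
theorem separate (x y : ℕ → BN) {P : Set ℕ} (hP : P.Infinite) :
    ∃ A ⊆ P, A.Infinite ∧ ((∀ n ∈ A, x n = y n) ∨ ∃ B : Set ℕ, ∀ n ∈ A, B ∈ x n ∧ B ∉ y n) := by
  classical
  by_cases h1 : {n | n ∈ P ∧ x n = y n}.Infinite
  · exact ⟨_, fun n hn => hn.1, h1, Or.inl fun n hn => hn.2⟩
  have h2 : {n | n ∈ P ∧ x n ≠ y n}.Infinite := by
    have h3 := hP.sdiff (not_infinite.1 h1)
    refine h3.mono ?_
    rintro n ⟨hn1, hn2⟩
    exact ⟨hn1, fun h => hn2 ⟨hn1, h⟩⟩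
  obtain ⟨A1, hA1P, hA1, hx⟩ := const_or_disjoint x h2
  rcases hx with ⟨u, hu⟩ | ⟨W, hW1, hW2⟩
  · obtain ⟨A2, hA2A1, hA2, hy⟩ := const_or_disjoint y hA1
    rcases hy with ⟨v, hv⟩ | ⟨W, hW1, hW2⟩
    · refine ⟨A2, fun n hn => (hA1P (hA2A1 hn)).1, hA2, Or.inr ?_⟩
      obtain ⟨n, hn⟩ := hA2.nonempty
      have hne : u ≠ v := by
        rw [← hu n (hA2A1 hn), ← hv n hn]
        exact (hA1P (hA2A1 hn)).2
      obtain ⟨B, hB1, hB2⟩ : ∃ C, C ∈ u ∧ C ∉ v := by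
        by_contra hcon
        push Not at hcon
        exact hne (Ultrafilter.coe_le_coe.1 fun s hs => hcon s hs).symm
      exact ⟨B, fun n hn => by
        rw [hu n (hA2A1 hn), hv n hn]
        exact ⟨hB1, hB2⟩⟩
    · obtain ⟨A3, hA3, hA3i, B, hB⟩ := sep_of_disjoint (x := y) (y := x) hA2
        (fun n hn => ((hA1P (hA2A1 hn)).2).symm) W hW1 hW2
      refine ⟨A3, fun n hn => (hA1P (hA2A1 (hA3 hn))).1, hA3i, Or.inr ⟨Bᶜ, fun n hn => ?_⟩⟩
      obtain ⟨h3, h4⟩ := hB n hn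
      refine ⟨(Ultrafilter.compl_mem_iff_notMem).2 h4, fun h5 => ?_⟩
      exact (Ultrafilter.compl_mem_iff_notMem).1 h5 h3
  · obtain ⟨A3, hA3, hA3i, B, hB⟩ := sep_of_disjoint (x := x) (y := y) hA1
      (fun n hn => (hA1P hn).2) W hW1 hW2
    exact ⟨A3, fun n hn => (hA1P (hA3 hn)).1, hA3i, Or.inr ⟨B, hB⟩⟩

/-! ### the ultrafilter -/

/-- The well-ordered set of type `ω₁`. -/
abbrev W : Type := (Cardinal.aleph 1).ord.ToType

theorem countable_Iio (a : W) : (Set.Iio a).Countable := by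
  have h := Cardinal.mk_Iio_lt (α := W) a (by simp)
  rw [Cardinal.mk_toType, Cardinal.card_ord, Cardinal.lt_aleph_one_iff] at h
  exact Cardinal.le_aleph0_iff_set_countable.1 h

theorem countable_Iic (a : W) : (Set.Iic a).Countable := by
  have : Set.Iic a = Set.Iio a ∪ {a} := by
    ext x; simp [le_iff_lt_or_eq]
  rw [this]
  exact (countable_Iio a).union (Set.countable_singleton a)

theorem mk_W : #W = ℵ₁ := by rw [Cardinal.mk_toType, Cardinal.card_ord]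

instance : Nonempty W := by
  rw [← Cardinal.mk_ne_zero_iff, mk_W]
  exact (Cardinal.aleph_pos 1).ne'

theorem not_countable_W : ¬ (Set.univ : Set W).Countable := by
  intro h
  rw [← Cardinal.le_aleph0_iff_set_countable, Cardinal.mk_univ, mk_W] at h
  exact absurd h (not_le.2 Cardinal.aleph0_lt_aleph_one)

/-- countable sets are bounded -/
theorem exists_ub {S : Set W} (hS : S.Countable) : ∃ b, ∀ s ∈ S, s < b := by
  by_contra hcon
  push Not at hcon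
  apply not_countable_W
  refine (hS.biUnion fun s _ => countable_Iic s).mono fun b _ => ?_
  obtain ⟨s, hs, hbs⟩ := hcon b
  exact mem_iUnion₂.2 ⟨s, hs, hbs⟩

/-- A countable family of sets, directed modulo finite sets, has an infinite pseudo-intersection. -/
theorem pseudo {ι : Type} {S : Set ι} (hS : S.Countable) (A : ι → Set ℕ)
    (h : ∀ s : Finset ι, (s : Set ι) ⊆ S → (⋂ i ∈ s, A i).Infinite) :
    ∃ P : Set ℕ, P.Infinite ∧ ∀ i ∈ S, (P \ A i).Finite := by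
  classical
  rcases S.eq_empty_or_nonempty with rfl | hne
  · exact ⟨Set.univ, Set.infinite_univ, by simp⟩
  obtain ⟨e, he⟩ := hS.exists_eq_range hne
  have h1 : ∀ k, (⋂ i ∈ (Finset.range (k + 1)).image e, A i).Infinite := fun k => h _ (by
    intro i hi
    obtain ⟨j, -, rfl⟩ := Finset.mem_image.1 (Finset.mem_coe.1 hi)
    rw [he]
    exact mem_range_self j)
  have h2 : ∀ k m, ∃ p, m < p ∧ p ∈ ⋂ i ∈ (Finset.range (k + 1)).image e, A i := by
    intro k m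
    obtain ⟨p, hp1, hp2⟩ := (h1 k).exists_gt m
    exact ⟨p, hp2, hp1⟩
  choose f hf1 hf2 using h2
  let p : ℕ → ℕ := fun k => Nat.rec (f 0 0) (fun k q => f (k + 1) q) k
  have hp : ∀ k, p k ∈ ⋂ i ∈ (Finset.range (k + 1)).image e, A i := by
    intro k
    cases k with
    | zero => exact hf2 0 0
    | succ k => exact hf2 (k + 1) (p k)
  have hmono : StrictMono p := strictMono_nat_of_lt_succ fun k => hf1 (k + 1) (p k)
  refine ⟨range p, Set.infinite_range_of_injective hmono.injective, fun i hi => ?_⟩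
  rw [he] at hi
  obtain ⟨j, rfl⟩ := hi
  refine ((Set.finite_Iio j).image p).subset ?_
  rintro _ ⟨⟨k, rfl⟩, hk⟩
  refine ⟨k, ?_, rfl⟩
  by_contra hcon
  have hjk : j ≤ k := not_lt.1 hcon
  exact hk (mem_iInter₂.1 (hp k) (e j) (Finset.mem_image_of_mem _ (Finset.mem_range.2 (by omega))))

/-- Given `ω₁` many pairs of sequences of ultrafilters, there is a nonprincipal ultrafilter along
which two sequences of a pair have the same limit only if they are equal almost everywhere. -/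
theorem exists_V (x y : W → ℕ → BN) : ∃ V : BN, (V : Filter ℕ) ≤ cofinite ∧
    ∀ ξ, V.bind (x ξ) = V.bind (y ξ) → {n | x ξ n = y ξ n} ∈ V := by
  classical
  obtain ⟨A, hA⟩ := exists_rec (κ := W) (S := Set ℕ)
    (fun ξ prev s => s.Infinite ∧ (∀ η (h : η < ξ), (s \ prev η h).Finite) ∧
      ((∀ n ∈ s, x ξ n = y ξ n) ∨ ∃ B : Set ℕ, ∀ n ∈ s, B ∈ x ξ n ∧ B ∉ y ξ n)) (by
    intro ξ f ih
    obtain ⟨P, hP1, hP2⟩ := pseudo (countable_Iio ξ) f (by
      intro s hs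
      -- the maximum of `s` is almost contained in the intersection
      rcases s.eq_empty_or_nonempty with rfl | hne
      · simpa using Set.infinite_univ
      · have hmax := s.max'_mem hne
        have hinf := (ih _ (hs hmax)).1
        have hfin : (⋃ i ∈ s, (f (s.max' hne) \ f i)).Finite := by
          refine s.finite_toSet.biUnion fun i hi => ?_
          rcases (s.le_max' i hi).eq_or_lt with h | h
          · rw [← h, diff_self]
            exact Set.finite_empty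
          · exact (ih _ (hs hmax)).2.1 i h
        refine (hinf.sdiff hfin).mono ?_
        rintro n ⟨hn1, hn2⟩
        refine mem_iInter₂.2 fun i hi => ?_
        by_contra hcon
        exact hn2 (mem_iUnion₂.2 ⟨i, hi, hn1, hcon⟩))
    obtain ⟨s, hsP, hs1, hs2⟩ := separate (x ξ) (y ξ) hP1
    exact ⟨s, hs1, fun η hη => (hP2 η hη).subset (diff_subset_diff_left hsP), hs2⟩)
  have hdir : Directed (· ≥ ·) fun ξ : W => cofinite ⊓ 𝓟 (A ξ) := by
    have key : ∀ a b : W, a < b → cofinite ⊓ 𝓟 (A b) ≤ cofinite ⊓ 𝓟 (A a) := by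
      intro a b hab
      refine le_inf inf_le_left ?_
      rw [Filter.le_principal_iff, mem_inf_principal]
      have h1 := ((hA b).2.1 a hab).compl_mem_cofinite
      filter_upwards [h1] with n hn hnb
      by_contra hcon
      exact hn ⟨hnb, hcon⟩
    intro a b
    rcases lt_trichotomy a b with h | h | h
    · exact ⟨b, key a b h, le_refl _⟩
    · subst h; exact ⟨a, le_refl _, le_refl _⟩
    · exact ⟨a, le_refl _, key b a h⟩
  have hNe : NeBot (⨅ ξ : W, cofinite ⊓ 𝓟 (A ξ)) :=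
    iInf_neBot_of_directed' hdir fun ξ => cofinite_inf_principal_neBot_iff.2 (hA ξ).1
  have hV : ∀ ξ : W, (Ultrafilter.of (⨅ ξ : W, cofinite ⊓ 𝓟 (A ξ)) : Filter ℕ) ≤
      cofinite ⊓ 𝓟 (A ξ) := fun ξ => (Ultrafilter.of_le _).trans (iInf_le _ ξ)
  refine ⟨Ultrafilter.of (⨅ ξ : W, cofinite ⊓ 𝓟 (A ξ)), ?_, fun ξ heq => ?_⟩
  · obtain ⟨ξ⟩ : Nonempty W := inferInstance
    exact (hV ξ).trans inf_le_left
  · have hAV : A ξ ∈ Ultrafilter.of (⨅ ξ : W, cofinite ⊓ 𝓟 (A ξ)) :=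
      (hV ξ) (mem_inf_of_right (mem_principal_self _))
    rcases (hA ξ).2.2 with h | ⟨B, hB⟩
    · exact mem_of_superset hAV h
    · exfalso
      have h0 : {n | B ∈ x ξ n} ∈ Ultrafilter.of (⨅ ξ : W, cofinite ⊓ 𝓟 (A ξ)) :=
        mem_of_superset hAV fun n hn => (hB n hn).1
      have h1 : B ∈ (Ultrafilter.of (⨅ ξ : W, cofinite ⊓ 𝓟 (A ξ))).bind (x ξ) := h0
      rw [heq] at h1
      have h2 : {n | B ∈ y ξ n} ∈ Ultrafilter.of (⨅ ξ : W, cofinite ⊓ 𝓟 (A ξ)) := h1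
      obtain ⟨n, hn1, hn2⟩ := (Ultrafilter.of (⨅ ξ : W, cofinite ⊓ 𝓟 (A ξ))).nonempty_of_mem
        (inter_mem hAV h2)
      exact (hB n hn1).2 hn2

/-! ### good sets of ultrafilters -/

/-- Sets of ultrafilters that carry a functional extension with Hausdorff S-topology. -/
structure GoodSet (T : Set BN) : Prop where
  princ : ∀ n, (pure n : BN) ∈ T
  img : ∀ u ∈ T, ∀ f : ℕ → ℕ, u.map f ∈ T
  dir : ∀ u ∈ T, ∀ v ∈ T, ∃ w ∈ T, w.map (fun n => (Nat.unpair n).1) = u ∧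
    w.map (fun n => (Nat.unpair n).2) = v
  haus : ∀ u ∈ T, ∀ f g : ℕ → ℕ, u.map f = u.map g → {n | f n = g n} ∈ u

theorem map_bind (V : BN) (x : ℕ → BN) (f : ℕ → ℕ) :
    (V.bind x).map f = V.bind fun n => (x n).map f := by
  apply Ultrafilter.coe_injective
  ext s
  exact Iff.rfl

theorem bind_const (V u : BN) : (V.bind fun _ => u) = u := by
  apply Ultrafilter.coe_injective
  ext s
  constructor
  · intro h
    have h1 : {m : ℕ | s ∈ u} ∈ V := h
    obtain ⟨m, hm⟩ := V.nonempty_of_mem h1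
    exact hm
  · intro h
    have h1 : {m : ℕ | s ∈ u} ∈ V := mem_of_superset univ_mem fun _ _ => h
    exact h1

theorem goodSet_princ : GoodSet (range fun n => (pure n : BN)) where
  princ n := ⟨n, rfl⟩
  img := by
    rintro _ ⟨n, rfl⟩ f
    exact ⟨f n, (Ultrafilter.map_pure f n).symm⟩
  dir := by
    rintro _ ⟨n, rfl⟩ _ ⟨m, rfl⟩
    refine ⟨pure (Nat.pair n m), ⟨_, rfl⟩, ?_, ?_⟩
    · rw [Ultrafilter.map_pure, Nat.unpair_pair]
    · rw [Ultrafilter.map_pure, Nat.unpair_pair]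
  haus := by
    rintro _ ⟨n, rfl⟩ f g h
    rw [Ultrafilter.map_pure, Ultrafilter.map_pure] at h
    exact Ultrafilter.pure_injective h

/-- The successor step. -/
theorem goodSet_step (hCH : ℵ₁ = (𝔠 : Cardinal.{0})) {T : Set BN} (hT : GoodSet T)
    (hc : #T ≤ 𝔠) : ∃ T' : Set BN, GoodSet T' ∧ #T' ≤ 𝔠 ∧ T ⊆ T' ∧
      (∃ u ∈ T', (u : Filter ℕ) ≤ cofinite) ∧
      ∀ x : ℕ → BN, (∀ n, x n ∈ T) → ∃ u ∈ T', ∀ B ∈ u, {n | B ∈ x n}.Infinite := by
  classical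
  have hcs : #(ℕ → T) ≤ 𝔠 := by
    rw [← Cardinal.power_def, Cardinal.mk_nat]
    calc #T ^ ℵ₀ ≤ 𝔠 ^ ℵ₀ := Cardinal.power_le_power_right hc
      _ = 𝔠 := Cardinal.continuum_power_aleph0
  -- an enumeration of the pairs of sequences
  obtain ⟨E, hE⟩ : ∃ E : W → (ℕ → T) × (ℕ → T), Function.Surjective E := by
    have h1 : #((ℕ → T) × (ℕ → T)) ≤ #W := by
      rw [mk_W, hCH, Cardinal.mk_prod, Cardinal.lift_id]
      exact (mul_le_mul' hcs hcs).trans Cardinal.continuum_mul_self.le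
    obtain ⟨e⟩ := (Cardinal.le_def _ _).1 h1
    have : Nonempty ((ℕ → T) × (ℕ → T)) := ⟨(fun _ => ⟨_, hT.princ 0⟩, fun _ => ⟨_, hT.princ 0⟩)⟩
    exact ⟨Function.invFun e, Function.invFun_surjective e.injective⟩
  obtain ⟨V, hV1, hV2⟩ := exists_V (fun ξ n => ((E ξ).1 n : BN)) (fun ξ n => ((E ξ).2 n : BN))
  have hsep : ∀ x y : ℕ → BN, (∀ n, x n ∈ T) → (∀ n, y n ∈ T) → V.bind x = V.bind y →
      {n | x n = y n} ∈ V := by
    intro x y hx hy h
    obtain ⟨ξ, hξ⟩ := hE (fun n => ⟨x n, hx n⟩, fun n => ⟨y n, hy n⟩)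
    have h1 := hV2 ξ
    rw [hξ] at h1
    exact h1 h
  refine ⟨{u | ∃ x : ℕ → BN, (∀ n, x n ∈ T) ∧ u = V.bind x}, ⟨?_, ?_, ?_, ?_⟩, ?_, ?_, ?_, ?_⟩
  · intro n
    exact ⟨fun _ => pure n, fun _ => hT.princ n, (bind_const V (pure n)).symm⟩
  · rintro _ ⟨x, hx, rfl⟩ f
    exact ⟨fun n => (x n).map f, fun n => hT.img _ (hx n) f, map_bind V x f⟩
  · rintro _ ⟨x, hx, rfl⟩ _ ⟨y, hy, rfl⟩
    have h1 := fun n => hT.dir _ (hx n) _ (hy n)
    choose w hw1 hw2 hw3 using h1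
    refine ⟨V.bind w, ⟨w, hw1, rfl⟩, ?_, ?_⟩
    · rw [map_bind]
      simp only [hw2]
    · rw [map_bind]
      simp only [hw3]
  · rintro _ ⟨x, hx, rfl⟩ f g h
    rw [map_bind, map_bind] at h
    have h1 := hsep _ _ (fun n => hT.img _ (hx n) f) (fun n => hT.img _ (hx n) g) h
    show {n | {m | f m = g m} ∈ x n} ∈ V
    refine mem_of_superset h1 fun n hn => ?_
    exact hT.haus _ (hx n) f g hn
  · have h1 : {u | ∃ x : ℕ → BN, (∀ n, x n ∈ T) ∧ u = V.bind x} ⊆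
        range fun x : ℕ → T => V.bind fun n => (x n : BN) := by
      rintro _ ⟨x, hx, rfl⟩
      exact ⟨fun n => ⟨x n, hx n⟩, rfl⟩
    exact (Cardinal.mk_le_mk_of_subset h1).trans (Cardinal.mk_range_le.trans hcs)
  · intro u hu
    exact ⟨fun _ => u, fun _ => hu, (bind_const V u).symm⟩
  · refine ⟨V, ⟨fun n => pure n, fun n => hT.princ n, ?_⟩, hV1⟩
    apply Ultrafilter.coe_injective
    ext s
    exact Iff.rfl
  · intro x hx
    refine ⟨V.bind x, ⟨x, hx, rfl⟩, fun B hB => ?_⟩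
    have hB' : {n | B ∈ x n} ∈ V := hB
    intro hfin
    have h1 := hV1 hfin.compl_mem_cofinite
    have h2 := V.nonempty_of_mem (inter_mem hB' h1)
    rw [inter_compl_self] at h2
    exact Set.not_nonempty_empty h2

/-- Unions of chains. -/
theorem goodSet_union {ι : Type} {S : Set ι} (f : ι → Set BN) (hf : ∀ i ∈ S, GoodSet (f i))
    (hchain : ∀ i ∈ S, ∀ j ∈ S, f i ⊆ f j ∨ f j ⊆ f i) :
    GoodSet ((range fun n => (pure n : BN)) ∪ ⋃ i ∈ S, f i) := by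
  have hmem : ∀ u ∈ (range fun n => (pure n : BN)) ∪ ⋃ i ∈ S, f i, ∀ v ∈ (range fun n =>
      (pure n : BN)) ∪ ⋃ i ∈ S, f i, ∃ G : Set BN, GoodSet G ∧
        G ⊆ (range fun n => (pure n : BN)) ∪ ⋃ i ∈ S, f i ∧ u ∈ G ∧ v ∈ G := by
    have hr : ∀ i ∈ S, (range fun n => (pure n : BN)) ⊆ f i := by
      rintro i hi _ ⟨n, rfl⟩
      exact (hf i hi).princ n
    have hs : ∀ i ∈ S, f i ⊆ (range fun n => (pure n : BN)) ∪ ⋃ i ∈ S, f i := fun i hi u hu =>
      Or.inr (mem_iUnion₂.2 ⟨i, hi, hu⟩)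
    rintro u (hu | hu) v (hv | hv)
    · exact ⟨_, goodSet_princ, subset_union_left, hu, hv⟩
    · obtain ⟨i, hi, hv⟩ := mem_iUnion₂.1 hv
      exact ⟨f i, hf i hi, hs i hi, hr i hi hu, hv⟩
    · obtain ⟨i, hi, hu⟩ := mem_iUnion₂.1 hu
      exact ⟨f i, hf i hi, hs i hi, hu, hr i hi hv⟩
    · obtain ⟨i, hi, hu⟩ := mem_iUnion₂.1 hu
      obtain ⟨j, hj, hv⟩ := mem_iUnion₂.1 hv
      rcases hchain i hi j hj with h | h
      · exact ⟨f j, hf j hj, hs j hj, h hu, hv⟩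
      · exact ⟨f i, hf i hi, hs i hi, hu, h hv⟩
  refine ⟨fun n => Or.inl ⟨n, rfl⟩, fun u hu g => ?_, fun u hu v hv => ?_, fun u hu g g' h => ?_⟩
  · obtain ⟨G, hG, hGs, hu, -⟩ := hmem u hu u hu
    exact hGs (hG.img u hu g)
  · obtain ⟨G, hG, hGs, hu, hv⟩ := hmem u hu v hv
    obtain ⟨w, hw, h1, h2⟩ := hG.dir u hu v hv
    exact ⟨w, hGs hw, h1, h2⟩
  · obtain ⟨G, hG, hGs, hu, -⟩ := hmem u hu u hu
    exact hG.haus u hu g g' h

/-- Under CH there is a good set of ultrafilters, not only principal ones, in which every sequence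
has a cluster point. -/
theorem exists_good (hCH : ℵ₁ = (𝔠 : Cardinal.{0})) : ∃ T : Set BN, GoodSet T ∧
    (∃ u ∈ T, (u : Filter ℕ) ≤ cofinite) ∧
    ∀ x : ℕ → BN, (∀ n, x n ∈ T) → ∃ u ∈ T, ∀ B ∈ u, {n | B ∈ x n}.Infinite := by
  classical
  obtain ⟨f, hf⟩ := exists_rec (κ := W) (S := Set BN)
    (fun ξ prev s => GoodSet s ∧ #s ≤ 𝔠 ∧ (∀ η (h : η < ξ), prev η h ⊆ s) ∧
      (∃ u ∈ s, (u : Filter ℕ) ≤ cofinite) ∧
      ∀ x : ℕ → BN, (∀ n, ∃ η, ∃ h : η < ξ, x n ∈ prev η h) →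
        ∃ u ∈ s, ∀ B ∈ u, {n | B ∈ x n}.Infinite) (by
    intro ξ f ih
    have hchain : ∀ i ∈ Set.Iio ξ, ∀ j ∈ Set.Iio ξ, f i ⊆ f j ∨ f j ⊆ f i := by
      intro i hi j hj
      rcases lt_trichotomy i j with h | h | h
      · exact Or.inl ((ih j hj).2.2.1 i h)
      · subst h; exact Or.inl (Subset.refl _)
      · exact Or.inr ((ih i hi).2.2.1 j h)
    have hR := goodSet_union (S := Set.Iio ξ) f (fun i hi => (ih i hi).1) hchain
    have hRc : #((range fun n => (pure n : BN)) ∪ ⋃ i ∈ Set.Iio ξ, f i : Set BN) ≤ 𝔠 := by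
      refine (Cardinal.mk_union_le _ _).trans ?_
      have h1 : #(range fun n => (pure n : BN)) ≤ 𝔠 :=
        ((Set.countable_range _).le_aleph0).trans Cardinal.aleph0_le_continuum
      have h2 : #(⋃ i ∈ Set.Iio ξ, f i : Set BN) ≤ 𝔠 := by
        rw [Set.biUnion_eq_iUnion]
        refine (Cardinal.mk_iUnion_le _).trans ?_
        have h3 : #(Set.Iio ξ) ≤ 𝔠 := ((countable_Iio ξ).le_aleph0).trans
          Cardinal.aleph0_le_continuum
        have h4 : (⨆ i : Set.Iio ξ, #(f i)) ≤ 𝔠 :=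
          ciSup_le' fun i : Set.Iio ξ => (ih i.1 i.2).2.1
        exact (mul_le_mul' h3 h4).trans Cardinal.continuum_mul_self.le
      exact (add_le_add h1 h2).trans Cardinal.continuum_add_self.le
    obtain ⟨T', h1, h2, h3, h4, h5⟩ := goodSet_step hCH hR hRc
    refine ⟨T', h1, h2, fun η hη u hu => h3 (Or.inr (mem_iUnion₂.2 ⟨η, hη, hu⟩)), h4,
      fun x hx => h5 x fun n => ?_⟩
    obtain ⟨η, hη, hn⟩ := hx n
    exact Or.inr (mem_iUnion₂.2 ⟨η, hη, hn⟩))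
  have hchain : ∀ i ∈ (Set.univ : Set W), ∀ j ∈ (Set.univ : Set W), f i ⊆ f j ∨ f j ⊆ f i := by
    intro i _ j _
    rcases lt_trichotomy i j with h | h | h
    · exact Or.inl ((hf j).2.2.1 i h)
    · subst h; exact Or.inl (Subset.refl _)
    · exact Or.inr ((hf i).2.2.1 j h)
  have hU := goodSet_union (S := Set.univ) f (fun i _ => (hf i).1) hchain
  obtain ⟨ξ₀⟩ : Nonempty W := inferInstance
  have hrange : ∀ u ∈ (range fun n => (pure n : BN)) ∪ ⋃ i ∈ (Set.univ : Set W), f i,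
      ∃ ξ, u ∈ f ξ := by
    rintro u (⟨n, rfl⟩ | hu)
    · exact ⟨ξ₀, (hf ξ₀).1.princ n⟩
    · obtain ⟨ξ, -, hξ⟩ := mem_iUnion₂.1 hu
      exact ⟨ξ, hξ⟩
  refine ⟨_, hU, ?_, ?_⟩
  · obtain ⟨u, hu, hu'⟩ := (hf ξ₀).2.2.2.1
    exact ⟨u, Or.inr (mem_iUnion₂.2 ⟨ξ₀, Set.mem_univ _, hu⟩), hu'⟩
  · intro x hx
    have h1 := fun n => hrange _ (hx n)
    choose g hg using h1
    obtain ⟨b, hb⟩ := exists_ub (Set.countable_range g)
    obtain ⟨u, hu, hu2⟩ := (hf b).2.2.2.2 x fun n => ⟨g n, hb _ ⟨n, rfl⟩, hg n⟩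
    exact ⟨u, Or.inr (mem_iUnion₂.2 ⟨b, Set.mem_univ _, hu⟩), hu2⟩

end Pool.Agent.X217.CC
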