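import Mathlib
import Pool.Agent.X217.CC

/-!
# The topology on a good set of ultrafilters
-/

namespace Pool.Agent.X217.CCTop

open Filter Set Pool.Agent.X217.CC
open scoped Topology

theorem map_eq_pure {u : BN} {f : ℕ → ℕ} {c : ℕ} (h : {n | f n = c} ∈ u) : u.map f = pure c := by
  apply Ultrafilter.coe_injective
  ext s
  constructor
  · intro hs
    have hs' : {n | f n ∈ s} ∈ u := hs
    obtain ⟨n, hn1, hn2⟩ := u.nonempty_of_mem (inter_mem h hs')
    have hn1' : f n = c := hn1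
    have hn2' : f n ∈ s := hn2
    rw [hn1'] at hn2'
    exact hn2'
  · intro hs
    have hs' : c ∈ s := hs
    have h1 : {n | f n ∈ s} ∈ u := mem_of_superset h fun n hn => by
      have hn' : f n = c := hn
      show f n ∈ s
      rw [hn']; exact hs'
    exact h1

theorem map_congr' {u : BN} {f g : ℕ → ℕ} (h : {n | f n = g n} ∈ u) : u.map f = u.map g := by
  apply Ultrafilter.coe_injective
  exact Filter.map_congr h

/-- The sets of ultrafilters of `T` containing a given set. -/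
def hat (T : Set BN) (A : Set ℕ) : Set T := {u | A ∈ u.1}

/-- The topology generated by these sets. -/
@[reducible] def top (T : Set BN) : TopologicalSpace T := TopologicalSpace.generateFrom {U | ∃ A : Set ℕ, U = hat T A}

theorem isOpen_hat (T : Set BN) (A : Set ℕ) : IsOpen[top T] (hat T A) :=
  TopologicalSpace.isOpen_generateFrom_of_mem ⟨A, rfl⟩

theorem exists_basic {T : Set BN} {U : Set T} (hU : IsOpen[top T] U) {u : T} (hu : u ∈ U) :
    ∃ A ∈ u.1, hat T A ⊆ U := by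
  have hU' : TopologicalSpace.GenerateOpen {U | ∃ A : Set ℕ, U = hat T A} U := hU
  clear hU
  induction hU' with
  | basic s hs =>
    obtain ⟨A, rfl⟩ := hs
    exact ⟨A, hu, Subset.refl _⟩
  | univ => exact ⟨Set.univ, univ_mem, fun _ _ => Set.mem_univ _⟩
  | inter s t _ _ ihs iht =>
    obtain ⟨A, hA, hAs⟩ := ihs hu.1
    obtain ⟨B, hB, hBt⟩ := iht hu.2
    refine ⟨A ∩ B, inter_mem hA hB, fun v hv => ⟨hAs ?_, hBt ?_⟩⟩
    · exact mem_of_superset (show A ∩ B ∈ v.1 from hv) inter_subset_left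
    · exact mem_of_superset (show A ∩ B ∈ v.1 from hv) inter_subset_right
  | sUnion S _ ih =>
    obtain ⟨s, hs, hus⟩ := hu
    obtain ⟨A, hA, hAs⟩ := ih s hs hus
    exact ⟨A, hA, hAs.trans (subset_sUnion_of_mem hs)⟩

theorem exists_sep {u v : BN} (h : u ≠ v) : ∃ A, A ∈ u ∧ A ∉ v := by
  by_contra hcon
  push Not at hcon
  exact h (Ultrafilter.coe_le_coe.1 fun s hs => hcon s hs).symm

theorem t2 (T : Set BN) : @T2Space T (top T) := by
  refine @T2Space.mk T (top T) fun u v huv => ?_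
  have hne : u.1 ≠ v.1 := fun h => huv (Subtype.ext h)
  obtain ⟨A, hA1, hA2⟩ := exists_sep hne
  refine ⟨hat T A, hat T Aᶜ, isOpen_hat T A, isOpen_hat T Aᶜ, hA1,
    (Ultrafilter.compl_mem_iff_notMem).2 hA2, ?_⟩
  rw [Set.disjoint_left]
  intro w hw1 hw2
  exact (Ultrafilter.compl_mem_iff_notMem).1 hw2 hw1

theorem finite_subcover {T : Set BN} (hT : ∀ x : ℕ → BN, (∀ n, x n ∈ T) →
      ∃ u ∈ T, ∀ B ∈ u, {n | B ∈ x n}.Infinite) (U : ℕ → Set T)
    (hU : ∀ n, IsOpen[top T] (U n)) (hcov : ⋃ n, U n = Set.univ) :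
    ∃ N, ⋃ n ∈ Finset.range N, U n = Set.univ := by
  by_contra hcon
  push Not at hcon
  have h1 : ∀ N, ∃ x : T, x ∉ ⋃ n ∈ Finset.range N, U n := fun N => by
    by_contra h
    push Not at h
    exact hcon N (eq_univ_of_forall h)
  choose x hx using h1
  obtain ⟨u, hu, hcl⟩ := hT (fun n => (x n).1) fun n => (x n).2
  have h2 : (⟨u, hu⟩ : T) ∈ ⋃ n, U n := by rw [hcov]; exact Set.mem_univ _
  obtain ⟨m, hm⟩ := mem_iUnion.1 h2
  obtain ⟨A, hA, hAU⟩ := exists_basic (hU m) hm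
  obtain ⟨n, hn1, hn2⟩ := (hcl A hA).exists_gt m
  exact hx n (mem_iUnion₂.2 ⟨m, Finset.mem_range.2 hn2, hAU hn1⟩)

end Pool.Agent.X217.CCTop
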