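import Mathlib
import Pool.Agent.TH778.SA.Seq

/-!
# The line of the leaves of a coherent Aronszajn tree is an Aronszajn line

These proofs are copied from `Pool.Agent.TH778.SA` (files Rel, Chain and Main) to avoid the heavy
imports of those files.
-/

set_option autoImplicit false

namespace Pool.Agent.X217.ALine

open Set Cardinal Pool.Agent.Helper330.DPK.Coh Pool.Agent.TH778.SA

/-- `x < y` if `s` is true, `y < x` otherwise -/
def rel (s : Bool) (x y : Sq) : Prop := cond s (x < y) (y < x)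

theorem rel_true {x y : Sq} : rel true x y ↔ x < y := Iff.rfl

theorem rel_false {x y : Sq} : rel false x y ↔ y < x := Iff.rfl

theorem rel_not {s : Bool} {x y : Sq} : rel (!s) x y ↔ rel s y x := by
  cases s <;> exact Iff.rfl

theorem rel_irrefl {s : Bool} (x : Sq) : ¬ rel s x x := by
  cases s <;> exact lt_irrefl x

theorem rel_ne {s : Bool} {x y : Sq} (h : rel s x y) : x ≠ y := by
  rintro rfl
  exact rel_irrefl x h

theorem rel_trans {s : Bool} {x y z : Sq} (h1 : rel s x y) (h2 : rel s y z) : rel s x z := by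
  cases s
  · exact lt_trans (α := Sq) h2 h1
  · exact lt_trans (α := Sq) h1 h2

theorem rel_asymm {s : Bool} {x y : Sq} (h1 : rel s x y) (h2 : rel s y x) : False :=
  rel_irrefl x (rel_trans h1 h2)

theorem rel_between {s : Bool} {x y z : Sq} {δ : W} (h1 : rel s x y) (h2 : rel s y z)
    (h : Agree δ x z) : Agree δ x y := by
  cases s
  · have h3 : Agree δ z y := agree_of_between (x := z) (y := y) (z := x) h2.le h1.le h.symm
    exact h.trans h3
  · exact agree_of_between h1.le h2.le h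

/-- pigeonhole -/
theorem pigeon {α β : Type} {S : Set α} (hS : ¬ S.Countable) (f : α → β) {T : Set β}
    (hT : T.Countable) (hf : ∀ a ∈ S, f a ∈ T) : ∃ t, ¬ {a | a ∈ S ∧ f a = t}.Countable := by
  by_contra hcon
  push Not at hcon
  apply hS
  refine (hT.biUnion fun t _ => hcon t).mono fun a ha => ?_
  exact mem_iUnion₂.2 ⟨f a, hf a ha, ha, rfl⟩

open Classical in
/-- the leaf attached at level `γ` -/
noncomputable def att (γ : W) (x : LL) : LL :=
  if h : γ ≤ ht x then (exists_attach x h).choose else x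

theorem att_ht {γ : W} {x : LL} (h : γ ≤ ht x) : ht (att γ x) = γ := by
  rw [att, dif_pos h]
  exact (exists_attach x h).choose_spec.1

theorem att_agree {γ : W} {x : LL} (h : γ ≤ ht x) : Agree γ x.1 (att γ x).1 := by
  rw [att, dif_pos h]
  exact (exists_attach x h).choose_spec.2

theorem exists_of_ht (α : W) : ∃ x : LL, ht x = α := by
  classical
  let y : Sq := toLex fun ξ => if ξ < α then (cg α ξ : ℝ) else if ξ = α then √2 else 0
  have hy : ∀ ξ, y ξ = if ξ < α then (cg α ξ : ℝ) else if ξ = α then √2 else 0 := fun ξ => rfl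
  have hleaf : Leaf y α := by
    refine ⟨⟨0, ?_⟩, fun ξ hξ => ⟨(cg α ξ : ℚ), ?_⟩, fun ξ hξ => ?_, ?_⟩
    · rw [hy, if_neg (lt_irrefl _), if_pos rfl]
      simp
    · rw [hy, if_pos hξ]
      simp
    · rw [hy, if_neg hξ.le.not_gt, if_neg hξ.ne']
    · refine Set.finite_empty.subset ?_
      rintro ξ ⟨h1, h2⟩
      rw [hy, if_pos h1] at h2
      exact h2 rfl
  exact ⟨⟨y, α, hleaf⟩, ht_eq hleaf⟩

theorem uncountable_LL : Uncountable LL := by
  by_contra hcon
  rw [not_uncountable_iff] at hcon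
  obtain ⟨b, hb⟩ := exists_ub (Set.countable_range ht)
  obtain ⟨x, hx⟩ := exists_of_ht b
  exact lt_irrefl b (hb b ⟨x, hx⟩)

theorem no_seq (s : Bool) (f : W → LL) (hf : ∀ α β, α < β → rel s (f α).1 (f β).1) : False := by
  classical
  have hinj : Function.Injective f := by
    intro α β h
    by_contra hne
    rcases lt_or_gt_of_ne hne with h1 | h1
    · exact rel_ne (hf _ _ h1) (by rw [h])
    · exact rel_ne (hf _ _ h1) (by rw [h])
  have hmain : ∀ β : W, ∃ a, ∀ α, a ≤ α → β ≤ ht (f α) ∧ Agree β (f a).1 (f α).1 := by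
    intro β
    have h1 : ¬ {α | β ≤ ht (f α)}.Countable := by
      intro h
      apply not_countable_W
      have h2 : {α | ht (f α) < β}.Countable :=
        Set.countable_of_injective_of_countable_image (f := f) hinj.injOn
          ((countable_ht_lt β).mono (by rintro _ ⟨α, h3, rfl⟩; exact h3))
      refine (h.union h2).mono fun α _ => ?_
      rcases le_or_gt β (ht (f α)) with h3 | h3
      · exact Or.inl h3
      · exact Or.inr h3
    obtain ⟨t, ht'⟩ := pigeon h1 (fun α => att β (f α)) (countable_ht_eq β)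
      (fun α hα => att_ht hα)
    obtain ⟨β0⟩ : Nonempty W := inferInstance
    obtain ⟨a, ⟨ha1, ha2⟩, -⟩ := exists_gt_of_not_countable ht' β0
    refine ⟨a, fun α hα => ?_⟩
    have hag : Agree β (f a).1 (f α).1 := by
      rcases hα.eq_or_lt with h2 | h2
      · rw [h2]
        exact Agree.refl _ _
      obtain ⟨b, ⟨hb1, hb2⟩, hb3⟩ := exists_gt_of_not_countable ht' α
      refine rel_between (hf _ _ h2) (hf _ _ hb3) ?_
      have h3 := att_agree (x := f a) ha1
      have h4 := att_agree (x := f b) hb1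
      have h5 : att β (f a) = att β (f b) := ha2.trans hb2.symm
      rw [h5] at h3
      exact h3.trans h4.symm
    exact ⟨ht_le_of_agree hag ha1, hag⟩
  choose a ha using hmain
  refine no_branch (fun β => f (a β)) (fun β => (ha β _ le_rfl).1) fun β γ hβγ => ?_
  have h1 := (ha β (max (a β) (a γ)) (le_max_left _ _)).2
  have h2 := (ha γ (max (a β) (a γ)) (le_max_right _ _)).2
  exact h1.trans (h2.mono hβγ).symm

theorem no_real (S : Set LL) (hS : ∃ f : S → ℝ, StrictMono f) : S.Countable := by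
  classical
  obtain ⟨f, hf⟩ := hS
  by_contra hSc
  obtain ⟨x0, hx0⟩ : S.Nonempty := by
    by_contra h
    rw [Set.not_nonempty_iff_eq_empty] at h
    exact hSc (by rw [h]; exact Set.countable_empty)
  let d : ℚ × ℚ → S := fun q => if h : ∃ z : S, (q.1 : ℝ) < f z ∧ f z < q.2 then h.choose
    else ⟨x0, hx0⟩
  have hd : ∀ q : ℚ × ℚ, (∃ z : S, (q.1 : ℝ) < f z ∧ f z < q.2) →
      (q.1 : ℝ) < f (d q) ∧ f (d q) < q.2 := by
    intro q h
    have : d q = h.choose := dif_pos h
    rw [this]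
    exact h.choose_spec
  obtain ⟨δ, hδ⟩ := exists_ub (Set.countable_range fun q => ht (d q).1)
  have hδ' : ∀ q, ht (d q).1 < δ := fun q => hδ _ ⟨q, rfl⟩
  have h1 : ¬ {x | x ∈ S ∧ δ ≤ ht x}.Countable := by
    intro h
    apply hSc
    refine (h.union (countable_ht_lt δ)).mono fun x hx => ?_
    rcases le_or_gt δ (ht x) with h3 | h3
    · exact Or.inl ⟨hx, h3⟩
    · exact Or.inr h3
  obtain ⟨t, ht'⟩ := pigeon h1 (fun x => att δ x) (countable_ht_eq δ) (fun x hx => att_ht hx.2)
  obtain ⟨A, hA⟩ : ∃ A : Set LL, A = {a | a ∈ {x | x ∈ S ∧ δ ≤ ht x} ∧ att δ a = t} := ⟨_, rfl⟩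
  rw [← hA] at ht'
  have hAS : ∀ a ∈ A, a ∈ S ∧ δ ≤ ht a ∧ att δ a = t := by
    intro a ha
    rw [hA] at ha
    exact ⟨ha.1.1, ha.1.2, ha.2⟩
  have hag : ∀ a ∈ A, ∀ b ∈ A, Agree δ a.1 b.1 := by
    intro a ha b hb
    obtain ⟨-, h2, h3⟩ := hAS a ha
    obtain ⟨-, h4, h5⟩ := hAS b hb
    have h6 := att_agree h2
    have h7 := att_agree h4
    rw [h3] at h6
    rw [h5] at h7
    exact h6.trans h7.symm
  have hno : ∀ x ∈ A, ∀ z ∈ A, ∀ y ∈ A, x < z → z < y → False := by
    intro x hx z hz y hy hxz hzy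
    have hx' := (hAS x hx).1
    have hz' := (hAS z hz).1
    have hy' := (hAS y hy).1
    have h2 : f ⟨x, hx'⟩ < f ⟨z, hz'⟩ := hf hxz
    have h3 : f ⟨z, hz'⟩ < f ⟨y, hy'⟩ := hf hzy
    obtain ⟨q1, h4, h5⟩ := exists_rat_btwn h2
    obtain ⟨q2, h6, h7⟩ := exists_rat_btwn h3
    obtain ⟨h8, h9⟩ := hd (q1, q2) ⟨⟨z, hz'⟩, h5, h6⟩
    have h10 : (⟨x, hx'⟩ : S) < d (q1, q2) := hf.lt_iff_lt.1 (h4.trans h8)
    have h11 : d (q1, q2) < ⟨y, hy'⟩ := hf.lt_iff_lt.1 (h9.trans h7)
    have h12 : Agree δ x.1 (d (q1, q2)).1.1 :=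
      rel_between (s := true) (z := y.1) h10 h11 (hag x hx y hy)
    exact absurd (ht_le_of_agree h12 (hAS x hx).2.1) (not_le.2 (hδ' _))
  apply ht'
  obtain ⟨a, ha⟩ : A.Nonempty := by
    by_contra h
    rw [Set.not_nonempty_iff_eq_empty] at h
    exact ht' (by rw [h]; exact Set.countable_empty)
  have h2 : (A ∩ Ioi a).Subsingleton := by
    intro b hb c hc
    by_contra hne
    rcases lt_or_gt_of_ne hne with h | h
    · exact hno a ha b hb.1 c hc.1 hb.2 h
    · exact hno a ha c hc.1 b hb.1 hc.2 h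
  have h3 : (A ∩ Iio a).Subsingleton := by
    intro b hb c hc
    by_contra hne
    rcases lt_or_gt_of_ne hne with h | h
    · exact hno b hb.1 c hc.1 a ha h hc.2
    · exact hno c hc.1 b hb.1 a ha h hb.2
  refine ((h2.countable.union h3.countable).union (Set.countable_singleton a)).mono ?_
  intro b hb
  rcases lt_trichotomy a b with h | h | h
  · exact Or.inl (Or.inl ⟨hb, h⟩)
  · exact Or.inr h.symm
  · exact Or.inl (Or.inr ⟨hb, h⟩)


end Pool.Agent.X217.ALine
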